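import Pool.Agent.Lib.MP_d308c3_co.LX.Side

/-! The annulus lemma LX on both sides of the centre, without weights. -/

namespace Pool.Agent.Lib.MP_d308c3_co.LX

open Finset Cut
open scoped Classical

variable {I : Type*}

/-- a level can be raised off all points without changing the upper set -/
theorem ex_off (Y : Finset I) (v : I → ℝ) (m : ℝ) :
    ∃ m', ∀ p ∈ Y, (m < v p ↔ m' < v p) ∧ m' ≠ v p := by
  rcases (Y.filter fun p => m < v p).eq_empty_or_nonempty with h | h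
  · refine ⟨m + 1, fun p hp => ?_⟩
    have : ¬ m < v p := fun e => (filter_eq_empty_iff.1 h) hp e
    exact ⟨⟨fun e => absurd e this, fun e => by linarith⟩, fun e => this (by linarith)⟩
  · obtain ⟨z, hz, hmin⟩ := exists_min_image _ v h
    have hz' := (mem_filter.1 hz).2
    refine ⟨(m + v z) / 2, fun p hp => ?_⟩
    by_cases e : m < v p
    · have := hmin p (mem_filter.2 ⟨hp, e⟩)
      exact ⟨⟨fun _ => by linarith, fun _ => e⟩, fun e' => by linarith⟩
    · exact ⟨⟨fun e' => absurd e' e, fun e' => by linarith⟩, fun e' => e (by linarith)⟩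

theorem flux_ext {U : ℕ → I → Prop} {Y : Finset I} {L L' : I → Prop} (h : ∀ p, L p ↔ L' p)
    (k0 k1 : ℕ) : flux U Y L k0 k1 = flux U Y L' k0 k1 := by
  rw [show L = L' from funext fun p => propext (h p)]

theorem lx {W A1 A2 : Type*} (a b : I → ℝ) (t m : ℕ → ℝ) (Y : Finset I) (k0 k1 : ℕ)
    (hm : ∀ k l, k0 ≤ k → k ≤ l → l ≤ k1 → t k ≤ t l) (x : ℝ)
    (J : Finset W) (lo hi : W → ℕ) (DT : W → A1) (DD : W → A2) (dlo dhi : A2 → ℕ)
    (Rows : A2 → Finset ℝ) (Lam : ℝ) (ell R A Bl : ℕ)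
    (hj : ∀ j ∈ J, k0 ≤ dlo (DD j) ∧ dlo (DD j) ≤ lo j ∧ lo j ≤ hi j ∧ hi j ≤ dhi (DD j) ∧
      dhi (DD j) ≤ k1)
    (hd : ∀ j ∈ J, ∀ j' ∈ J, j ≠ j' → hi j ≤ lo j' ∨ hi j' ≤ lo j)
    (hL : 1 ≤ Lam) (hl : Lam ≤ 2 ^ ell) (hR : ∀ j ∈ J, (Rows (DD j)).card ≤ R)
    (hrow : ∀ j ∈ J, ∀ lam ∈ Rows (DD j),
      0 < lam ∧ 64 * Lam * (t (dhi (DD j)) - t (dlo (DD j))) ≤ lam)
    (hsep : ∀ j ∈ J, ∀ j' ∈ J, DT j ≠ DT j' → ∃ lam ∈ Rows (DD j), lam ∈ Rows (DD j') ∧
      lam ≤ Lam * |t (lo j) - t (lo j')| ∧ |t (lo j) - t (lo j')| ≤ lam)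
    (hA : ∀ d, (J.filter fun j => DT j = d).card ≤ A) (hB : 3 * J.card < 2 ^ Bl) :
    ∃ (P1 P2 : W → Finset ℝ) (Rest : W → ℝ → Prop) (Q : W → Finset ℤ),
      (∀ j ∈ J, (P1 j).card ≤ 24 * R * Bl + 1 ∧ (P2 j).card ≤ 24 * R * Bl + 1 ∧
        (Q j).card ≤ 24 * R * Bl * (ell + 10)) ∧
      (∀ j ∈ J, ∀ y y' : ℝ, y < y' → ¬ (Rest j y ↔ Rest j y') →
        (∃ z ∈ P1 j, y < z ∧ z ≤ y') ∨ ∃ z ∈ P2 j, y ≤ z ∧ z < y') ∧
      (∀ j ∈ J, ∀ (y : ℝ) (q : ℤ), (2 : ℝ) ^ q ≤ |y - x| → |y - x| < (2 : ℝ) ^ (q + 1) →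
        q ∉ Q j → Rest j y) ∧
      ∑ j ∈ J, ((Ch (St a b t m) (Y.filter fun p => Rest j (a p)) (lo j) (hi j)).card +
          ∑ z ∈ P1 j, flux (St a b t m) Y (fun p => a p < z) (lo j) (hi j) +
          ∑ z ∈ P2 j, flux (St a b t m) Y (fun p => a p ≤ z) (lo j) (hi j)) ≤
        2000 * (R + 1) ^ 2 * (Bl + 1) ^ 3 * ((A + 1) * Phi (St a b t m) Y k0 k1 +
          ∑ d ∈ J.image DD, Phi (St a b t m) Y (dlo d) (dhi d)) := by
  set U := St a b t m with hU
  choose m' hm' using fun k => ex_off Y (fun p => b p + t k * a p) (m k)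
  set Yp := Y.filter fun p => ¬ a p ≤ x with hYp
  set Ym := Y.filter fun p => ¬ x ≤ a p with hYm
  set Um := St (fun p => x - a p) (fun p => - b p) t fun k => - m' k + t k * x with hUm
  have eU : U = St (fun p => a p - x) b t fun k => m k - t k * x := St_shear a b t m x
  have eM : ∀ k, ∀ p ∈ Y, Um k p ↔ ¬ U k p := by
    intro k p hp
    obtain ⟨e1, e2⟩ := hm' k p hp
    simp only [hUm, hU, St]
    rw [e1]
    constructor
    · intro e e'; linarith
    · intro e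
      have := lt_of_le_of_ne (not_lt.1 e) (Ne.symm e2)
      linarith
  obtain ⟨P, Re, Q, p1, p2, p3, p4⟩ := side (fun p => a p - x) b t (fun k => m k - t k * x) Yp k0 k1
    (fun p hp => sub_pos.2 (not_le.1 (mem_filter.1 hp).2)) hm J lo hi DT DD dlo dhi Rows Lam
    ell R A Bl hj hd hL hl hR hrow hsep hA hB
  obtain ⟨P', Re', Q', q1, q2, q3, q4⟩ := side (fun p => x - a p) (fun p => - b p) t
    (fun k => - m' k + t k * x) Ym k0 k1
    (fun p hp => sub_pos.2 (not_le.1 (mem_filter.1 hp).2)) hm J lo hi DT DD dlo dhi Rows Lam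
    ell R A Bl hj hd hL hl hR hrow hsep hA hB
  rw [← eU] at p4
  rw [← hUm] at q4
  refine ⟨fun j => insert x ((P j).image fun z => x + z), fun j => insert x ((P' j).image fun z => x - z),
    fun j y => (x < y ∧ Re j (y - x)) ∨ (y < x ∧ Re' j (x - y)), fun j => Q j ∪ Q' j,
    ?_, ?_, ?_, ?_⟩
  · intro j hj'
    refine ⟨(card_insert_le _ _).trans (Nat.succ_le_succ (card_image_le.trans (p1 j hj').1)),
      (card_insert_le _ _).trans (Nat.succ_le_succ (card_image_le.trans (q1 j hj').1)), ?_⟩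
    have := card_union_le (Q j) (Q' j)
    have := (p1 j hj').2.1
    have := (q1 j hj').2.1
    nlinarith
  · intro j hj' y y' hy h
    by_cases e1 : x < y
    · have e2 : x < y' := e1.trans hy
      obtain ⟨z, hz, f1, f2⟩ := p2 j hj' (y - x) (y' - x) (by linarith) fun e => h (by
        simp only [e1, e2, true_and, not_lt.2 e1.le, not_lt.2 e2.le, false_and, or_false, e])
      exact Or.inl ⟨x + z, mem_insert_of_mem (mem_image_of_mem _ hz), by linarith, by linarith⟩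
    by_cases e2 : y' < x
    · have e3 : y < x := hy.trans e2
      obtain ⟨z, hz, f1, f2⟩ := q2 j hj' (x - y') (x - y) (by linarith) fun e => h (by
        simp only [e2, e3, true_and, not_lt.2 e2.le, not_lt.2 e3.le, false_and, false_or, e])
      exact Or.inr ⟨x - z, mem_insert_of_mem (mem_image_of_mem _ hz), by linarith, by linarith⟩
    rcases (not_lt.1 e1).lt_or_eq with e3 | e3
    · exact Or.inl ⟨x, mem_insert_self _ _, e3, not_lt.1 e2⟩
    · exact Or.inr ⟨x, mem_insert_self _ _, e3.le, e3 ▸ hy⟩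
  · intro j hj' y q e0 e1 hq
    rw [mem_union, not_or] at hq
    rcases lt_trichotomy x y with h | h | h
    · rw [abs_of_pos (sub_pos.2 h)] at e0 e1
      exact Or.inl ⟨h, p3 j hj' _ q e0 e1 hq.1⟩
    · rw [h, sub_self, abs_zero] at e0
      exact absurd e0 (not_le.2 (by positivity))
    · rw [abs_sub_comm, abs_of_pos (sub_pos.2 h)] at e0 e1
      exact Or.inr ⟨h, q3 j hj' _ q e0 e1 hq.2⟩
  have hin : ∀ j ∈ J, k0 ≤ lo j ∧ hi j ≤ k1 := fun j hj' =>
    ⟨(hj j hj').1.trans (hj j hj').2.1, (hj j hj').2.2.2.1.trans (hj j hj').2.2.2.2⟩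
  have hT : ∀ l0 l1, k0 ≤ l0 → l1 ≤ k1 → TP U Y (coneLt a b (t l0) (t l1)) l0 l1 :=
    fun l0 l1 e0 e1 => tp_lines (fun k l x y z => hm k l (e0.trans x) y (z.trans e1)) le_rfl le_rfl Y
  have YmY : Ym ⊆ Y := filter_subset _ _
  have phiM : ∀ Z ⊆ Y, ∀ l0 l1, Phi Um Z l0 l1 = Phi U Z l0 l1 := fun Z hZ l0 l1 => by
    rw [← Phi_not (U := U)]; exact Phi_congr fun k _ _ p hp => eM k p (hZ hp)
  have chM : ∀ Z ⊆ Y, ∀ l0 l1, Ch Um Z l0 l1 = Ch U Z l0 l1 := fun Z hZ l0 l1 => by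
    rw [← Ch_not (U := U)]; exact Ch_congr fun k _ _ p hp => eM k p (hZ hp)
  have flM : ∀ (L : I → Prop) l0 l1, flux Um Y (fun p => ¬ L p) l0 l1 = flux U Y L l0 l1 :=
    fun L l0 l1 => by
      rw [← flux_not (U := U)]; exact flux_congr _ fun k _ _ p hp => eM k p hp
  have h3 : ∀ l0 l1, k0 ≤ l0 → l1 ≤ k1 →
      Phi U Yp l0 l1 ≤ 3 * Phi U Y l0 l1 ∧ Phi Um Ym l0 l1 ≤ 3 * Phi U Y l0 l1 := by
    intro l0 l1 e0 e1
    have a1 := half_Phi (hT l0 l1 e0 e1) (down_le (x := x) Y)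
    have a2 := half_Phi (hT l0 l1 e0 e1) (down_lt (x := x) Y)
    have a3 : (Y.filter fun p => a p < x) = Ym := filter_congr fun _ _ => not_le.symm
    rw [a3] at a2
    rw [phiM Ym YmY]
    exact ⟨le_trans (Nat.le_add_left _ _) a1, le_trans (Nat.le_add_right _ _) a2⟩
  set F1 : W → ℕ := fun j => flux U Y (fun p => a p < x) (lo j) (hi j) with hF1
  set F2 : W → ℕ := fun j => flux U Y (fun p => a p ≤ x) (lo j) (hi j) with hF2
  have s1 : ∑ j ∈ J, F1 j ≤ Phi U Y k0 k1 :=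
    (sum_win J lo hi _ k0 k1 hin hd).trans (flux_le_Phi (hT k0 k1 le_rfl le_rfl) (down_lt Y))
  have s2 : ∑ j ∈ J, F2 j ≤ Phi U Y k0 k1 :=
    (sum_win J lo hi _ k0 k1 hin hd).trans (flux_le_Phi (hT k0 k1 le_rfl le_rfl) (down_le Y))
  have each : ∀ j ∈ J, (Ch U (Y.filter fun p => (x < a p ∧ Re j (a p - x)) ∨
        (a p < x ∧ Re' j (x - a p))) (lo j) (hi j)).card +
      ∑ z ∈ insert x ((P j).image fun z => x + z), flux U Y (fun p => a p < z) (lo j) (hi j) +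
      ∑ z ∈ insert x ((P' j).image fun z => x - z), flux U Y (fun p => a p ≤ z) (lo j) (hi j) ≤
      ((Ch U (Yp.filter fun p => Re j (a p - x)) (lo j) (hi j)).card +
        ∑ z ∈ P j, flux U Yp (fun p => a p - x < z) (lo j) (hi j)) +
      ((Ch Um (Ym.filter fun p => Re' j (x - a p)) (lo j) (hi j)).card +
        ∑ z ∈ P' j, flux Um Ym (fun p => x - a p < z) (lo j) (hi j)) +
      (24 * R * Bl + 1) * (F1 j + F2 j) := by
    intro j hj'
    have c1 : (Ch U (Y.filter fun p => (x < a p ∧ Re j (a p - x)) ∨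
        (a p < x ∧ Re' j (x - a p))) (lo j) (hi j)).card ≤
        (Ch U (Yp.filter fun p => Re j (a p - x)) (lo j) (hi j)).card +
        (Ch Um (Ym.filter fun p => Re' j (x - a p)) (lo j) (hi j)).card := by
      rw [chM _ ((filter_subset _ _).trans YmY)]
      refine le_trans (card_le_card fun p hp => ?_) (card_union_le _ _)
      obtain ⟨hp, e⟩ := mem_Ch.1 hp
      obtain ⟨hp, f⟩ := mem_filter.1 hp
      rcases f with f | f
      · exact mem_union_left _ (mem_Ch.2 ⟨mem_filter.2 ⟨mem_filter.2 ⟨hp, not_le.2 f.1⟩, f.2⟩, e⟩)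
      · exact mem_union_right _ (mem_Ch.2 ⟨mem_filter.2 ⟨mem_filter.2 ⟨hp, not_le.2 f.1⟩, f.2⟩, e⟩)
    have ins : ∀ (S : Finset ℝ) (g : ℝ → ℝ) (f : ℝ → ℕ),
        ∑ z ∈ insert x (S.image g), f z ≤ f x + ∑ z ∈ S, f (g z) := by
      intro S g f
      have e1 : ∑ z ∈ insert x (S.image g), f z ≤ f x + ∑ z ∈ S.image g, f z := by
        by_cases h : x ∈ S.image g
        · rw [insert_eq_of_mem h]; omega
        · rw [sum_insert h]
      exact e1.trans (Nat.add_le_add_left (sum_image_le_of_nonneg fun _ _ => Nat.zero_le _) _)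
    have c2 := ins (P j) (fun z => x + z) fun z => flux U Y (fun p => a p < z) (lo j) (hi j)
    have c3 := ins (P' j) (fun z => x - z) fun z => flux U Y (fun p => a p ≤ z) (lo j) (hi j)
    have c4 : ∀ z ∈ P j, flux U Y (fun p => a p < x + z) (lo j) (hi j) ≤
        flux U Yp (fun p => a p - x < z) (lo j) (hi j) + F2 j := by
      intro z hz
      have z0 := (p1 j hj').2.2 z hz
      rw [flux_ext (L' := fun p => a p - x < z) fun p => ⟨fun e => by linarith, fun e => by linarith⟩]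
      exact flux_le_add (L0 := fun p => a p ≤ x) fun p _ e => by linarith
    have c5 : ∀ z ∈ P' j, flux U Y (fun p => a p ≤ x - z) (lo j) (hi j) ≤
        flux Um Ym (fun p => x - a p < z) (lo j) (hi j) + F1 j := by
      intro z hz
      have z0 := (q1 j hj').2.2 z hz
      rw [← flM, flux_ext (L' := fun p => x - a p < z) fun p =>
        ⟨fun e => by linarith [not_le.1 e], fun e e' => by linarith⟩]
      have e : F1 j = flux Um Y (fun p => x ≤ a p) (lo j) (hi j) := by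
        simp only [hF1]
        rw [← flM]
        exact flux_ext (fun p => not_lt) _ _
      rw [e]
      exact flux_le_add (L0 := fun p => x ≤ a p) fun p _ e => by linarith
    have c6 := sum_le_sum c4
    have c7 := sum_le_sum c5
    rw [sum_add_distrib, sum_const, smul_eq_mul] at c6 c7
    have c8 := Nat.mul_le_mul_right (F2 j) (p1 j hj').1
    have c9 := Nat.mul_le_mul_right (F1 j) (q1 j hj').1
    have e1 : flux U Y (fun p => a p < x) (lo j) (hi j) = F1 j := rfl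
    have e2 : flux U Y (fun p => a p ≤ x) (lo j) (hi j) = F2 j := rfl
    simp only [e1, e2] at c2 c3
    rw [mul_add, add_mul, add_mul]
    omega
  have tot := sum_le_sum each
  rw [sum_add_distrib (f := fun j => _ + _) (g := fun j => (24 * R * Bl + 1) * (F1 j + F2 j)),
    sum_add_distrib (g := fun j => (Ch Um (Ym.filter fun p => Re' j (x - a p)) (lo j) (hi j)).card +
        ∑ z ∈ P' j, flux Um Ym (fun p => x - a p < z) (lo j) (hi j)), ← mul_sum,
    sum_add_distrib (f := F1)] at tot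
  have d1 : ∑ d ∈ J.image DD, Phi U Yp (dlo d) (dhi d) ≤
      3 * ∑ d ∈ J.image DD, Phi U Y (dlo d) (dhi d) := by
    rw [mul_sum]
    refine sum_le_sum fun d hd' => ?_
    obtain ⟨j, hj', rfl⟩ := mem_image.1 hd'
    exact (h3 _ _ (hj j hj').1 (hj j hj').2.2.2.2).1
  have d2 : ∑ d ∈ J.image DD, Phi Um Ym (dlo d) (dhi d) ≤
      3 * ∑ d ∈ J.image DD, Phi U Y (dlo d) (dhi d) := by
    rw [mul_sum]
    refine sum_le_sum fun d hd' => ?_
    obtain ⟨j, hj', rfl⟩ := mem_image.1 hd'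
    exact (h3 _ _ (hj j hj').1 (hj j hj').2.2.2.2).2
  obtain ⟨d3, d4⟩ := h3 k0 k1 le_rfl le_rfl
  set Ph := Phi U Y k0 k1
  set SD := ∑ d ∈ J.image DD, Phi U Y (dlo d) (dhi d)
  set K := (R + 1) ^ 2 * (Bl + 1) ^ 3 with hK
  have k1' : R * Bl + 1 ≤ K := by
    have : (R + 1) * (Bl + 1) ≤ K := by
      simp only [hK]
      exact Nat.mul_le_mul (Nat.le_self_pow (by norm_num) _) (Nat.le_self_pow (by norm_num) _)
    nlinarith
  have k2 : R ^ 2 * Bl ^ 3 ≤ K := by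
    simp only [hK]
    gcongr <;> omega
  have n1 : (2 + 216 * R * Bl) * (A + 1) * Phi U Yp k0 k1 ≤ 216 * K * (A + 1) * (3 * Ph) := by
    gcongr
    nlinarith
  have n2 : (2 + 216 * R * Bl) * (A + 1) * Phi Um Ym k0 k1 ≤ 216 * K * (A + 1) * (3 * Ph) := by
    gcongr
    nlinarith
  have n3 : 288 * R ^ 2 * Bl ^ 3 * ∑ d ∈ J.image DD, Phi U Yp (dlo d) (dhi d) ≤
      288 * K * (3 * SD) := by
    rw [mul_assoc 288]
    gcongr
  have n4 : 288 * R ^ 2 * Bl ^ 3 * ∑ d ∈ J.image DD, Phi Um Ym (dlo d) (dhi d) ≤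
      288 * K * (3 * SD) := by
    rw [mul_assoc 288]
    gcongr
  have n5 : (24 * R * Bl + 1) * (∑ j ∈ J, F1 j + ∑ j ∈ J, F2 j) ≤ 24 * K * ((A + 1) * (2 * Ph)) := by
    refine Nat.mul_le_mul (by nlinarith) ?_
    nlinarith
  have fin := tot.trans (add_le_add (add_le_add (p4.trans (add_le_add n1 n3))
    (q4.trans (add_le_add n2 n4))) n5)
  have last : 216 * K * (A + 1) * (3 * Ph) + 288 * K * (3 * SD) +
      (216 * K * (A + 1) * (3 * Ph) + 288 * K * (3 * SD)) + 24 * K * ((A + 1) * (2 * Ph)) ≤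
      2000 * (R + 1) ^ 2 * (Bl + 1) ^ 3 * ((A + 1) * Ph + SD) := by
    rw [mul_assoc 2000, ← hK]
    nlinarith [Nat.zero_le (K * ((A + 1) * Ph)), Nat.zero_le (K * SD)]
  refine le_trans (le_of_eq ?_) (fin.trans last)
  congr!

end Pool.Agent.Lib.MP_d308c3_co.LX
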