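import Mathlib

/-! Light scales of a finite set of reals, unions of bands, and the potential step. -/

namespace Pool.Agent.Lib.MP_d308c3_co.LX

open Finset
open scoped Classical

/-- number of values within distance `e` of `c` -/
noncomputable def nb (V : Finset ℝ) (c e : ℝ) : ℕ := (V.filter fun v => |v - c| ≤ e).card

/-- the scale `s` is light for `c` -/
def Light (V : Finset ℝ) (c : ℝ) (s : ℤ) : Prop :=
  2 * nb V c ((2 : ℝ) ^ (s - 2)) ≤ nb V c ((2 : ℝ) ^ (s + 2))

theorem nb_mono (V : Finset ℝ) (c : ℝ) {e e' : ℝ} (h : e ≤ e') : nb V c e ≤ nb V c e' :=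
  card_le_card fun _ hv => mem_filter.2 ⟨(mem_filter.1 hv).1, (mem_filter.1 hv).2.trans h⟩

theorem nb_le (V : Finset ℝ) (c e : ℝ) : nb V c e ≤ V.card := card_filter_le _ _

theorem nb_pos {V : Finset ℝ} {c e : ℝ} (hc : c ∈ V) (he : 0 ≤ e) : 0 < nb V c e :=
  card_pos.2 ⟨c, mem_filter.2 ⟨hc, by simpa using he⟩⟩

theorem size_lt {n m : ℕ} (h0 : 0 < n) (h : 2 * n ≤ m) : n.size < m.size := by
  rw [Nat.lt_size]
  have h1 : 0 < n.size := Nat.size_pos.2 h0
  have h2 : 2 ^ (n.size - 1) ≤ n := Nat.lt_size.1 (by omega)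
  have h3 : 2 ^ n.size = 2 * 2 ^ (n.size - 1) := by
    rw [← pow_succ']; congr 1; omega
  omega

/-- at most `4 Bl` light scales -/
theorem ex_light (V : Finset ℝ) (Bl : ℕ) (hB : V.card < 2 ^ Bl) (c : ℝ) :
    ∃ S : Finset ℤ, S.card ≤ 4 * Bl ∧ (c ∈ V → ∀ s, s ∈ S ↔ Light V c s) := by
  by_cases hc : c ∈ V
  swap
  · exact ⟨∅, by simp, fun h => absurd h hc⟩
  set f : ℤ → ℕ := fun s => (nb V c ((2 : ℝ) ^ s)).size with hf
  have fm : ∀ s s', s ≤ s' → f s ≤ f s' := fun s s' h =>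
    Nat.size_le_size (nb_mono V c (zpow_le_zpow_right₀ (by norm_num) h))
  have fl : ∀ s, Light V c s → f (s - 2) < f (s + 2) := fun s h =>
    size_lt (nb_pos hc (by positivity)) h
  have fb : ∀ s, f s ≤ Bl := fun s => Nat.size_le.2 ((nb_le V c _).trans_lt hB)
  have inj : Set.InjOn (fun s : ℤ => ((s % 4).toNat, f (s - 2))) {s | Light V c s} := by
    intro s hs s' hs' h
    simp only [Prod.mk.injEq] at h
    have h1 : s % 4 = s' % 4 := by omega
    by_contra hne
    rcases lt_or_gt_of_ne hne with h2 | h2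
    · have := fm (s + 2) (s' - 2) (by omega)
      have := fl s hs
      omega
    · have := fm (s' + 2) (s - 2) (by omega)
      have := fl s' hs'
      omega
  have mp : Set.MapsTo (fun s : ℤ => ((s % 4).toNat, f (s - 2))) {s | Light V c s}
      ((range 4 ×ˢ range Bl : Finset (ℕ × ℕ)) : Set (ℕ × ℕ)) := by
    intro s hs
    have := fl s hs
    have := fb (s + 2)
    simp only [coe_product, Set.mem_prod, mem_coe, mem_range]
    omega
  have fin : {s | Light V c s}.Finite := Set.Finite.of_injOn mp inj (Finset.finite_toSet _)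
  refine ⟨fin.toFinset, ?_, fun _ s => by simp⟩
  have := card_le_card_of_injOn (s := fin.toFinset) (t := range 4 ×ˢ range Bl)
    (fun s : ℤ => ((s % 4).toNat, f (s - 2))) (fun s hs => mp (by simpa using hs))
    (by simpa using inj)
  simpa using this

/-- the scale of the distance of two values is light for one of them -/
theorem light_pair {V : Finset ℝ} {c c' : ℝ} {s : ℤ} (h0 : (2 : ℝ) ^ s ≤ |c - c'|)
    (h1 : |c - c'| < (2 : ℝ) ^ (s + 1)) : Light V c s ∨ Light V c' s := by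
  have e1 : (2 : ℝ) ^ (s - 2) = 2 ^ s / 4 := by rw [zpow_sub₀ (by norm_num)]; norm_num
  have e2 : (2 : ℝ) ^ (s + 2) = 2 ^ s * 4 := by rw [zpow_add₀ (by norm_num)]; norm_num
  have e3 : (2 : ℝ) ^ (s + 1) = 2 ^ s * 2 := by rw [zpow_add₀ (by norm_num)]; norm_num
  have p : (0 : ℝ) < 2 ^ s := by positivity
  have key : ∀ d : ℝ, (d = c ∨ d = c') →
      nb V c ((2 : ℝ) ^ (s - 2)) + nb V c' ((2 : ℝ) ^ (s - 2)) ≤ nb V d ((2 : ℝ) ^ (s + 2)) := by
    intro d hd
    unfold nb
    rw [← card_union_of_disjoint]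
    · refine card_le_card fun v hv => ?_
      rw [e3, abs_lt] at h1
      rcases mem_union.1 hv with h | h
      · obtain ⟨a, b⟩ := mem_filter.1 h
        rw [e1, abs_le] at b
        refine mem_filter.2 ⟨a, ?_⟩
        rw [e2, abs_le]
        rcases hd with rfl | rfl <;> constructor <;> linarith [b.1, b.2, h1.1, h1.2]
      · obtain ⟨a, b⟩ := mem_filter.1 h
        rw [e1, abs_le] at b
        refine mem_filter.2 ⟨a, ?_⟩
        rw [e2, abs_le]
        rcases hd with rfl | rfl <;> constructor <;> linarith [b.1, b.2, h1.1, h1.2]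
    · rw [disjoint_left]
      intro v h h'
      have a := (mem_filter.1 h).2
      have b := (mem_filter.1 h').2
      have := abs_sub_le c v c'
      rw [abs_sub_comm c v] at this
      rw [e1] at a b
      linarith
  have k1 := key c (Or.inl rfl)
  have k2 := key c' (Or.inr rfl)
  unfold Light
  omega

/-- boundary points of a union of half open bands `[l i, u i)` -/
theorem ex_ends {ι : Type*} (B : Finset ι) (l u : ι → ℝ) :
    ∃ P : Finset ℝ, P.card ≤ 2 * B.card ∧ (∀ x ∈ P, (∃ i ∈ B, x = l i ∨ x = u i) ∧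
        ∀ i ∈ B, ¬ (l i < x ∧ x < u i)) ∧
      ∀ y y' : ℝ, y < y' →
        ¬ ((∀ i ∈ B, ¬ (l i ≤ y ∧ y < u i)) ↔ ∀ i ∈ B, ¬ (l i ≤ y' ∧ y' < u i)) →
        ∃ x ∈ P, y < x ∧ x ≤ y' := by
  refine ⟨(B.image l ∪ B.image u).filter fun x => ∀ i ∈ B, ¬ (l i < x ∧ x < u i), ?_, ?_, ?_⟩
  · have := card_union_le (B.image l) (B.image u)
    have := card_image_le (s := B) (f := l)
    have := card_image_le (s := B) (f := u)
    have := card_filter_le (B.image l ∪ B.image u) fun x => ∀ i ∈ B, ¬ (l i < x ∧ x < u i)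
    omega
  · intro x hx
    obtain ⟨h1, h2⟩ := mem_filter.1 hx
    refine ⟨?_, h2⟩
    rcases mem_union.1 h1 with h | h
    · obtain ⟨i, hi, e⟩ := mem_image.1 h
      exact ⟨i, hi, Or.inl e.symm⟩
    · obtain ⟨i, hi, e⟩ := mem_image.1 h
      exact ⟨i, hi, Or.inr e.symm⟩
  · intro y y' hy h
    by_cases h1 : ∀ i ∈ B, ¬ (l i ≤ y ∧ y < u i)
    · have h2 : ¬ ∀ i ∈ B, ¬ (l i ≤ y' ∧ y' < u i) := fun h2 => h ⟨fun _ => h2, fun _ => h1⟩
      push Not at h2
      obtain ⟨i, hi, a, b⟩ := h2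
      have c : y < l i := by
        by_contra hc
        exact h1 i hi ⟨not_lt.1 hc, hy.trans b⟩
      obtain ⟨k, hk, hmin⟩ := exists_min_image (B.filter fun k => y < l k) l
        ⟨i, mem_filter.2 ⟨hi, c⟩⟩
      obtain ⟨hk, d⟩ := mem_filter.1 hk
      refine ⟨l k, mem_filter.2 ⟨mem_union_left _ (mem_image_of_mem _ hk), ?_⟩, d,
        (hmin i (mem_filter.2 ⟨hi, c⟩)).trans a⟩
      rintro n hn ⟨e, f⟩
      by_cases g : y < l n
      · linarith [hmin n (mem_filter.2 ⟨hn, g⟩)]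
      · exact h1 n hn ⟨not_lt.1 g, d.trans f⟩
    · have h2 : ∀ i ∈ B, ¬ (l i ≤ y' ∧ y' < u i) := by
        by_contra h2
        exact h ⟨fun a => absurd a h1, fun a => absurd a h2⟩
      push Not at h1
      obtain ⟨i, hi, a, b⟩ := h1
      have c : u i ≤ y' := by
        by_contra hc
        exact h2 i hi ⟨a.trans hy.le, not_le.1 hc⟩
      obtain ⟨k, hk, hmax⟩ := exists_max_image (B.filter fun k => u k ≤ y') u
        ⟨i, mem_filter.2 ⟨hi, c⟩⟩
      obtain ⟨hk, d⟩ := mem_filter.1 hk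
      refine ⟨u k, mem_filter.2 ⟨mem_union_right _ (mem_image_of_mem _ hk), ?_⟩,
        b.trans_le (hmax i (mem_filter.2 ⟨hi, c⟩)), d⟩
      rintro n hn ⟨e, f⟩
      by_cases g : u n ≤ y'
      · linarith [hmax n (mem_filter.2 ⟨hn, g⟩)]
      · exact h2 n hn ⟨e.le.trans d, not_le.1 g⟩

theorem min_sum_le {ι : Type*} (B : Finset ι) (f : ι → ℕ) (x : ℕ) :
    min x (∑ i ∈ B, f i) ≤ ∑ i ∈ B, min x (f i) := by
  induction B using Finset.induction_on with
  | empty => simp
  | insert i B hi ih => rw [sum_insert hi, sum_insert hi]; omega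

/-- the potential step -/
theorem pot {I : Type*} (O N X Y : Finset I) (f : I → ℕ) (pm D : ℕ) (hf : ∀ p, f p ≤ pm)
    (hON : ∀ p ∈ O, ∀ q ∈ N, f p ≤ f q) (hX : X ⊆ O) (hY : Y ⊆ N)
    (hXY : ∀ p ∈ X, ∀ q ∈ Y, f p < f q) (hD : O.card ≤ N.card + D) :
    min X.card Y.card + ∑ p ∈ O, f p ≤ ∑ q ∈ N, f q + pm * D := by
  rcases O.eq_empty_or_nonempty with rfl | hO
  · rw [subset_empty.1 hX]; simp
  obtain ⟨z, hz, hmax⟩ := exists_max_image O f hO
  have a1 : ∑ p ∈ O \ X, f p ≤ (O \ X).card * f z := by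
    simpa using sum_le_card_nsmul (O \ X) f (f z) fun p hp => hmax p (mem_sdiff.1 hp).1
  have a2 : (N \ Y).card * f z ≤ ∑ q ∈ N \ Y, f q := by
    simpa using card_nsmul_le_sum (N \ Y) f (f z) fun q hq => hON z hz q (mem_sdiff.1 hq).1
  have b1 := sum_sdiff (f := f) hX
  have b2 := sum_sdiff (f := f) hY
  have c1 := card_sdiff_add_card_eq_card hX
  have c2 := card_sdiff_add_card_eq_card hY
  have d : f z * D ≤ pm * D := Nat.mul_le_mul_right _ (hf z)
  have d2 : O.card * f z ≤ (N.card + D) * f z := Nat.mul_le_mul_right _ hD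
  by_cases h : ∀ p ∈ X, f p < f z
  · have e1 : ∑ p ∈ X, (f p + 1) ≤ X.card * f z := by
      simpa using sum_le_card_nsmul X (fun p => f p + 1) (f z) h
    have e2 : Y.card * f z ≤ ∑ q ∈ Y, f q := by
      simpa using card_nsmul_le_sum Y f (f z) fun q hq => hON z hz q (hY hq)
    rw [sum_add_distrib] at e1
    simp only [sum_const, smul_eq_mul, mul_one] at e1
    have := min_le_left X.card Y.card
    rw [← c1, ← c2] at d2
    nlinarith
  · push Not at h
    obtain ⟨p, hp, hp'⟩ := h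
    have e1 : ∑ p ∈ X, f p ≤ X.card * f z := by
      simpa using sum_le_card_nsmul X f (f z) fun p hp => hmax p (hX hp)
    have e2 : Y.card * (f z + 1) ≤ ∑ q ∈ Y, f q := by
      simpa using card_nsmul_le_sum Y f (f z + 1) fun q hq => hp'.trans_lt (hXY p hp q hq)
    have := min_le_right X.card Y.card
    rw [← c1, ← c2] at d2
    nlinarith

/-- increments of a monotone sequence over disjoint windows -/
theorem sum_incr {W : Type*} (J : Finset W) (lo hi : W → ℕ) (G : ℕ → ℤ) (d0 d1 : ℕ) (h01 : d0 ≤ d1)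
    (hG : ∀ k, d0 ≤ k → k < d1 → G k ≤ G (k + 1))
    (hj : ∀ j ∈ J, d0 ≤ lo j ∧ lo j ≤ hi j ∧ hi j ≤ d1)
    (hd : ∀ j ∈ J, ∀ j' ∈ J, j ≠ j' → hi j ≤ lo j' ∨ hi j' ≤ lo j) :
    ∑ j ∈ J, (G (hi j) - G (lo j)) ≤ G d1 - G d0 := by
  have tel : ∀ k l, k ≤ l → G l - G k = ∑ n ∈ Ico k l, (G (n + 1) - G n) := fun k l h =>
    (Finset.sum_Ico_sub G h).symm
  rw [tel d0 d1 h01, sum_congr rfl fun j hj' => tel _ _ (hj j hj').2.1, ← sum_biUnion]
  · refine sum_le_sum_of_subset_of_nonneg (biUnion_subset.2 fun j hj' =>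
      Ico_subset_Ico (hj j hj').1 (hj j hj').2.2) fun n hn _ => ?_
    obtain ⟨a, b⟩ := mem_Ico.1 hn
    linarith [hG n a b]
  · intro j h j' h' hne
    refine disjoint_left.2 fun n a b => ?_
    have := mem_Ico.1 a
    have := mem_Ico.1 b
    have := hd j h j' h' hne
    omega

end Pool.Agent.Lib.MP_d308c3_co.LX
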