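import Pool.Agent.Lib.MP_d308c3_co.Pin
import Pool.Agent.Lib.MP_d308c3_co.LX.Light

/-! The annulus lemma on one side of the centre: geometric steps. -/

namespace Pool.Agent.Lib.MP_d308c3_co.LX

open Finset Cut
open scoped Classical

variable {I : Type*} {r b : I → ℝ} {t c : ℕ → ℝ} {X : Finset I}

/-- `y` lies in the core of the band `(lam, s)` -/
def Core (Lam lam : ℝ) (s : ℤ) (y : ℝ) : Prop :=
  (2 : ℝ) ^ (s - 1) ≤ lam * y ∧ lam * y < 8 * Lam * (2 : ℝ) ^ (s - 1)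

/-- (MULT), geometry -/
theorem mult_geo (V : Finset ℝ) {Lam lam s0 s1 s0' s1' v v' : ℝ} {p : I} (hr : 0 < r p)
    (hL : 1 ≤ Lam) (hl : 0 < lam) (h1 : Pinned r b s0 s1 v p) (h2 : Pinned r b s0' s1' v' p)
    (e1 : 64 * Lam * (s1 - s0) ≤ lam) (e2 : 64 * Lam * (s1' - s0') ≤ lam)
    (e3 : lam ≤ Lam * |s0 - s0'|) (e4 : |s0 - s0'| ≤ lam) :
    ∃ s, (Light V v s ∨ Light V v' s) ∧ Core Lam lam s (r p) := by
  unfold Pinned at h1 h2
  have a0 : |(b p + s0 * r p) - (b p + s0' * r p)| = |s0 - s0'| * r p := by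
    rw [show (b p + s0 * r p) - (b p + s0' * r p) = (s0 - s0') * r p by ring, abs_mul,
      abs_of_pos hr]
  have a1 := abs_sub_le (b p + s0 * r p) v (b p + s0' * r p)
  have a2 := abs_sub_le v v' (b p + s0' * r p)
  have a3 := abs_sub_le v (b p + s0 * r p) v'
  have a4 := abs_sub_le (b p + s0 * r p) (b p + s0' * r p) v'
  rw [abs_sub_comm v' (b p + s0' * r p)] at a2
  rw [abs_sub_comm v (b p + s0 * r p)] at a3
  have L0 : 0 < Lam := by linarith
  have f1 : 64 * Lam * ((s1 - s0) * r p) ≤ lam * r p := by nlinarith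
  have f2 : 64 * Lam * ((s1' - s0') * r p) ≤ lam * r p := by nlinarith
  have f3 : lam * r p ≤ Lam * (|s0 - s0'| * r p) := by nlinarith
  have f4 : |s0 - s0'| * r p ≤ lam * r p := by nlinarith
  have g0 : 0 < lam * r p := mul_pos hl hr
  have n1 : 0 ≤ (s1 - s0) * r p := (abs_nonneg _).trans h1
  have n2 : 0 ≤ (s1' - s0') * r p := (abs_nonneg _).trans h2
  have up : |v - v'| ≤ 2 * (lam * r p) := by nlinarith
  have lo : lam * r p ≤ 2 * Lam * |v - v'| := by
    have : |s0 - s0'| * r p ≤ (s1 - s0) * r p + |v - v'| + (s1' - s0') * r p := by linarith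
    nlinarith
  have pos : 0 < |v - v'| := by
    by_contra h
    have : |v - v'| = 0 := le_antisymm (not_lt.1 h) (abs_nonneg _)
    rw [this] at lo
    linarith
  obtain ⟨s, hs0, hs1⟩ := exists_mem_Ico_zpow pos (by norm_num : (1 : ℝ) < 2)
  refine ⟨s, light_pair hs0 hs1, ?_, ?_⟩
  · rw [zpow_sub₀ (by norm_num)]; norm_num; linarith
  · have e : (2 : ℝ) ^ (s + 1) = 4 * 2 ^ (s - 1) := by
      rw [zpow_add₀ (by norm_num), zpow_sub₀ (by norm_num)]; norm_num; ring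
    rw [e] at hs1
    nlinarith

/-- the potential of a point -/
noncomputable def piF (r b : I → ℝ) (V : Finset ℝ) (s0 s1 lam : ℝ) (p : I) : ℕ :=
  (V.filter fun v => b p + s0 * r p - 9 * lam * r p ≤ v ∧ v ≤ b p + s1 * r p + 9 * lam * r p).card.size

theorem piF_le {V : Finset ℝ} {Bl : ℕ} (hB : V.card < 2 ^ Bl) (s0 s1 lam : ℝ) (p : I) :
    piF r b V s0 s1 lam p ≤ Bl := Nat.size_le.2 ((card_filter_le _ _).trans_lt hB)

theorem piF_mono (V : Finset ℝ) {s0 s1 lam : ℝ} (hl : 0 ≤ lam) {p q : I}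
    (h : coneLt r b s0 s1 p q) : piF r b V s0 s1 lam p ≤ piF r b V s0 s1 lam q := by
  refine Nat.size_le_size (card_le_card fun v hv => ?_)
  obtain ⟨a, e, f⟩ := mem_filter.1 hv
  have g : lam * r p ≤ lam * r q := mul_le_mul_of_nonneg_left h.1.le hl
  exact mem_filter.2 ⟨a, by linarith [h.2.1], by linarith [h.2.2]⟩

/-- (POT), geometry -/
theorem piF_lt {V : Finset ℝ} {Lam lam d0 d1 s0 s1 v : ℝ} {s : ℤ} {p q : I} (hv : v ∈ V)
    (hs : Light V v s) (hL : 1 ≤ Lam) (hq : 0 < r q)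
    (h0 : d0 ≤ s0) (h1 : s1 ≤ d1) (h01 : s0 ≤ d1) (e : 64 * Lam * (d1 - d0) ≤ lam)
    (h : coneLt r b d0 d1 p q) (hp : Pinned r b s0 s1 v q) (hc : Core Lam lam s (r q))
    (hs' : 64 * (lam * r p) ≤ (2 : ℝ) ^ (s - 1)) :
    piF r b V d0 d1 lam p < piF r b V d0 d1 lam q := by
  have e1 : (2 : ℝ) ^ (s - 2) = 2 ^ (s - 1) / 2 := by
    rw [zpow_sub₀ (by norm_num), zpow_sub₀ (by norm_num)]; norm_num; ring
  have e2 : (2 : ℝ) ^ (s + 2) = 8 * 2 ^ (s - 1) := by
    rw [zpow_add₀ (by norm_num), zpow_sub₀ (by norm_num)]; norm_num; ring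
  obtain ⟨c1, c2⟩ := hc
  set E := (2 : ℝ) ^ (s - 1) with hE
  have E0 : 0 < E := by positivity
  unfold Pinned at hp
  rw [abs_le] at hp
  have L0 : 0 < Lam := by linarith
  have a1 : (s1 - s0) * r q ≤ (d1 - d0) * r q := by nlinarith
  have a2 : (s0 - d0) * r q ≤ (d1 - d0) * r q := by nlinarith
  have a3 : (d1 - s0) * r q ≤ (d1 - d0) * r q := by nlinarith
  have a4 : 0 ≤ (s0 - d0) * r q := by nlinarith
  have a5 : 0 ≤ (d1 - s0) * r q := mul_nonneg (by linarith) hq.le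
  have a6 : 64 * Lam * ((d1 - d0) * r q) ≤ lam * r q := by nlinarith
  have a7 : 0 ≤ (d1 - d0) * r q := by nlinarith
  have a8 : 8 * ((d1 - d0) * r q) ≤ E := by
    have : Lam * (64 * ((d1 - d0) * r q)) ≤ Lam * (8 * E) := by nlinarith
    have := le_of_mul_le_mul_left this L0
    linarith
  have a9 : (d1 - d0) * r q ≤ lam * r q := by nlinarith
  calc piF r b V d0 d1 lam p ≤ (nb V v ((2 : ℝ) ^ (s - 2))).size := by
        refine Nat.size_le_size (card_le_card fun x hx => ?_)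
        obtain ⟨a, f, g⟩ := mem_filter.1 hx
        refine mem_filter.2 ⟨a, ?_⟩
        rw [e1, abs_le]
        constructor <;> nlinarith [h.2.1, h.2.2, hp.1, hp.2]
    _ < (nb V v ((2 : ℝ) ^ (s + 2))).size := size_lt (nb_pos hv (by positivity)) hs
    _ ≤ piF r b V d0 d1 lam q := by
        refine Nat.size_le_size (card_le_card fun x hx => ?_)
        obtain ⟨a, f⟩ := mem_filter.1 hx
        rw [e2, abs_le] at f
        refine mem_filter.2 ⟨a, ?_, ?_⟩ <;> nlinarith [hp.1, hp.2, f.1, f.2]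

/-- the potential of a state -/
noncomputable def Gf (U : ℕ → I → Prop) (X : Finset I) (f : I → ℕ) (pm d0 k : ℕ) : ℤ :=
  ∑ p ∈ X.filter (U k), (f p : ℤ) + pm * Dr U X d0 k

theorem sum_sub (U : ℕ → I → Prop) (X : Finset I) (f : I → ℕ) (k l : ℕ) :
    ∑ p ∈ X.filter (U l), (f p : ℤ) - ∑ p ∈ X.filter (U k), (f p : ℤ) =
      ∑ p ∈ out U X l k, (f p : ℤ) - ∑ p ∈ out U X k l, (f p : ℤ) := by
  have h1 := sum_filter_add_sum_filter_not (X.filter (U l)) (U k) fun p => (f p : ℤ)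
  have h2 := sum_filter_add_sum_filter_not (X.filter (U k)) (U l) fun p => (f p : ℤ)
  rw [filter_filter, filter_filter] at h1 h2
  have e : (X.filter fun p => U l p ∧ U k p) = X.filter fun p => U k p ∧ U l p :=
    filter_congr fun _ _ => and_comm
  rw [e] at h1
  unfold out
  linarith

theorem Gf_step {U : ℕ → I → Prop} {R : I → I → Prop} {f : I → ℕ} {pm d0 d1 k l : ℕ}
    (hT : TP U X R d0 d1) (hf : ∀ p, f p ≤ pm) (hR : ∀ p q, R p q → f p ≤ f q)
    (h0 : d0 ≤ k) (h : k ≤ l) (h1 : l ≤ d1) {X0 Y0 : Finset I} (hX : X0 ⊆ out U X k l)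
    (hY : Y0 ⊆ out U X l k) (hXY : ∀ p ∈ X0, ∀ q ∈ Y0, R p q → f p < f q) :
    ((min X0.card Y0.card : ℕ) : ℤ) ≤ Gf U X f pm d0 l - Gf U X f pm d0 k := by
  have hR' : ∀ p ∈ out U X k l, ∀ q ∈ out U X l k, R p q := by
    intro p hp q hq
    obtain ⟨hp, e, e'⟩ := mem_out.1 hp
    obtain ⟨hq, g, g'⟩ := mem_out.1 hq
    rcases h.lt_or_eq with h | rfl
    · exact hT k l h0 h h1 p hp q hq e e' g g'
    · exact absurd e e'
  have a := pot (out U X k l) (out U X l k) X0 Y0 f pm (Dr U X k l) hf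
    (fun p hp q hq => hR p q (hR' p hp q hq)) hX hY
    (fun p hp q hq => hXY p hp q hq (hR' p (hX hp) q (hY hq))) (card_out_le le_rfl h h le_rfl)
  have a' : ((min X0.card Y0.card : ℕ) : ℤ) + ∑ p ∈ out U X k l, (f p : ℤ) ≤
      ∑ q ∈ out U X l k, (f q : ℤ) + pm * Dr U X k l := by exact_mod_cast a
  have e := sum_sub U X f k l
  have d : (Dr U X d0 k : ℤ) + Dr U X k l = Dr U X d0 l := by exact_mod_cast Dr_add h0 h
  unfold Gf
  rw [← d]
  linarith

theorem Gf_top {U : ℕ → I → Prop} {f : I → ℕ} {pm d0 d1 : ℕ} (hf : ∀ p, f p ≤ pm) (h : d0 ≤ d1) :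
    Gf U X f pm d0 d1 - Gf U X f pm d0 d0 ≤ pm * Phi U X d0 d1 := by
  have e := sum_sub U X f d0 d1
  have a : ∑ p ∈ out U X d1 d0, f p ≤ (out U X d1 d0).card * pm := by
    simpa using sum_le_card_nsmul _ f pm fun p _ => hf p
  have a2 := card_le_card (out_subset_Ch (U := U) (Y := X) h le_rfl le_rfl h)
  have a3 : ∑ p ∈ out U X d1 d0, f p ≤ pm * (Ch U X d0 d1).card := by nlinarith
  have a4 : ∑ p ∈ out U X d1 d0, (f p : ℤ) ≤ pm * (Ch U X d0 d1).card := by exact_mod_cast a3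
  have a5 : 0 ≤ ∑ p ∈ out U X d0 d1, (f p : ℤ) := sum_nonneg fun _ _ => by positivity
  have z : Dr U X d0 d0 = 0 := by simp [Dr]
  unfold Gf Phi
  rw [z]
  push_cast
  linarith

/-- flux of one cut in one window -/
theorem flux_cut {V : Finset ℝ} {Rw : Finset ℝ} {S : Finset ℤ} {Lam z : ℝ} {Bl d0 d1 k l : ℕ}
    (hr : ∀ p ∈ X, 0 < r p) (hm : ∀ k l, d0 ≤ k → k ≤ l → l ≤ d1 → t k ≤ t l)
    (hB : V.card < 2 ^ Bl) (hL : 1 ≤ Lam) (h0 : d0 ≤ k) (h : k ≤ l) (h1 : l ≤ d1)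
    (hv : c k ∈ V) (hS : ∀ s ∈ S, Light V (c k) s)
    (hrow : ∀ lam ∈ Rw, 0 < lam ∧ 64 * Lam * (t d1 - t d0) ≤ lam)
    (hz : ∀ lam ∈ Rw, ∀ s ∈ S, lam * z < 8 * Lam * (2 : ℝ) ^ (s - 1) →
      64 * (lam * z) ≤ (2 : ℝ) ^ (s - 1)) :
    (flux (St r b t c) X (fun p => r p < z) k l : ℤ) ≤ 3 * Dr (St r b t c) X k l +
      ((Ch (St r b t c) X k l).filter fun p => Pinned r b (t k) (t l) (c k) p ∧
        ¬ ∃ lam ∈ Rw, ∃ s ∈ S, Core Lam lam s (r p)).card +
      S.card * ∑ lam ∈ Rw, (Gf (St r b t c) X (piF r b V (t d0) (t d1) lam) Bl d0 l -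
        Gf (St r b t c) X (piF r b V (t d0) (t d1) lam) Bl d0 k) := by
  set U := St r b t c with hU
  have hT : TP U X (coneLt r b (t d0) (t d1)) d0 d1 := tp_lines hm le_rfl le_rfl X
  have hT' : TP U X (coneLt r b (t d0) (t d1)) k l := hT.mono Subset.rfl h0 h1
  have f1 := flux_le_out hT' (down_lt (x := z) X) h
  have f2 := flux_le_in hT' (down_lt (x := z) X) h
  set X0 := (out U X k l).filter fun p => r p < z with hX0
  set Y0 := (out U X l k).filter fun p => ¬ r p < z with hY0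
  set Un := (Ch U X k l).filter fun p => Pinned r b (t k) (t l) (c k) p ∧
    ¬ ∃ lam ∈ Rw, ∃ s ∈ S, Core Lam lam s (r p) with hUn
  set dG : ℝ → ℤ := fun lam => Gf U X (piF r b V (t d0) (t d1) lam) Bl d0 l -
    Gf U X (piF r b V (t d0) (t d1) lam) Bl d0 k with hdG
  have f1' : flux U X (fun p => r p < z) k l ≤ X0.card + Dr U X k l := by convert f1
  have f2' : flux U X (fun p => r p < z) k l ≤ Y0.card + 2 * Dr U X k l := by convert f2
  have pos : ∀ lam ∈ Rw, 0 ≤ dG lam := by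
    intro lam hl
    have := Gf_step hT (piF_le hB (t d0) (t d1) lam) (fun p q => piF_mono V (hrow lam hl).1.le)
      h0 h h1 (X0 := ∅) (Y0 := ∅) (empty_subset _) (empty_subset _) (by simp)
    exact le_trans (by positivity) this
  have pos' : 0 ≤ (S.card : ℤ) * ∑ lam ∈ Rw, dG lam :=
    mul_nonneg (by positivity) (sum_nonneg pos)
  rcases pin1' (b := b) (c := c) (fun p hp => (hr p hp).le) h (hm k l h0 h h1) le_rfl le_rfl with
    g | g
  · have a : Y0.card ≤ Dr U X k l := (card_filter_le _ _).trans g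
    have a' : (flux U X (fun p => r p < z) k l : ℤ) ≤ 3 * Dr U X k l := by
      exact_mod_cast (by omega : flux U X (fun p => r p < z) k l ≤ 3 * Dr U X k l)
    have : (0 : ℤ) ≤ Un.card := by positivity
    linarith
  · have sub : Y0 ⊆ Un ∪ (Rw ×ˢ S).biUnion fun i => Y0.filter fun p => Core Lam i.1 i.2 (r p) := by
      intro p hp
      have hp' := (mem_filter.1 hp).1
      by_cases e : ∃ lam ∈ Rw, ∃ s ∈ S, Core Lam lam s (r p)
      · obtain ⟨lam, hl, s, hs, e⟩ := e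
        exact mem_union_right _ (mem_biUnion.2 ⟨(lam, s), mem_product.2 ⟨hl, hs⟩,
          mem_filter.2 ⟨hp, e⟩⟩)
      · exact mem_union_left _ (mem_filter.2 ⟨out_subset_Ch h le_rfl le_rfl h hp', g p hp', e⟩)
    have a1 := (card_le_card sub).trans (card_union_le _ _)
    have a2 := card_biUnion_le (s := Rw ×ˢ S)
      (t := fun i => Y0.filter fun p => Core Lam i.1 i.2 (r p))
    have a3 := min_sum_le (Rw ×ˢ S) (fun i => (Y0.filter fun p => Core Lam i.1 i.2 (r p)).card)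
      X0.card
    have a4 : ∀ i ∈ Rw ×ˢ S,
        ((min X0.card (Y0.filter fun p => Core Lam i.1 i.2 (r p)).card : ℕ) : ℤ) ≤ dG i.1 := by
      rintro ⟨lam, s⟩ hi
      obtain ⟨hl, hs⟩ := mem_product.1 hi
      refine Gf_step hT (piF_le hB (t d0) (t d1) lam) (fun p q => piF_mono V (hrow lam hl).1.le)
        h0 h h1 (filter_subset _ _) ((filter_subset _ _).trans (filter_subset _ _)) ?_
      intro p hp q hq hpq
      obtain ⟨hq, hc⟩ := mem_filter.1 hq
      obtain ⟨hq, hz'⟩ := mem_filter.1 hq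
      have l0 := (hrow lam hl).1
      have b1 : lam * z ≤ lam * r q := mul_le_mul_of_nonneg_left (not_lt.1 hz') l0.le
      have b2 := hz lam hl s hs (b1.trans_lt hc.2)
      have b3 : lam * r p ≤ lam * z := mul_le_mul_of_nonneg_left (mem_filter.1 hp).2.le l0.le
      exact piF_lt hv (hS s hs) hL (hr q (mem_out.1 hq).1) (hm d0 k le_rfl h0 (h.trans h1))
        (hm l d1 (h0.trans h) h1 le_rfl) (hm k d1 h0 (h.trans h1) le_rfl) (hrow lam hl).2 hpq
        (g q hq) hc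
        (by linarith)
    have a5 := sum_le_sum a4
    have a6 : ∑ i ∈ Rw ×ˢ S, dG i.1 = S.card * ∑ lam ∈ Rw, dG lam := by
      rw [sum_product, mul_sum]; simp
    have a7 : flux U X (fun p => r p < z) k l ≤ 3 * Dr U X k l + Un.card +
        ∑ i ∈ Rw ×ˢ S, min X0.card (Y0.filter fun p => Core Lam i.1 i.2 (r p)).card := by omega
    have a8 : (flux U X (fun p => r p < z) k l : ℤ) ≤ 3 * Dr U X k l + Un.card +
        ∑ i ∈ Rw ×ˢ S, ((min X0.card (Y0.filter fun p => Core Lam i.1 i.2 (r p)).card : ℕ) : ℤ) := by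
      exact_mod_cast a7
    exact a8.trans (add_le_add le_rfl (a5.trans a6.le))

end Pool.Agent.Lib.MP_d308c3_co.LX
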