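import Pool.Agent.Lib.MP_d308c3_co.LX.One

/-! The annulus lemma on one side of the centre: the sum over the windows. -/

namespace Pool.Agent.Lib.MP_d308c3_co.LX

open Finset Cut
open scoped Classical

variable {I : Type*}

theorem sum_win {W : Type*} (J : Finset W) (lo hi : W → ℕ) (f : ℕ → ℕ) (k0 k1 : ℕ)
    (hj : ∀ j ∈ J, k0 ≤ lo j ∧ hi j ≤ k1)
    (hd : ∀ j ∈ J, ∀ j' ∈ J, j ≠ j' → hi j ≤ lo j' ∨ hi j' ≤ lo j) :
    ∑ j ∈ J, ∑ k ∈ Ico (lo j) (hi j), f k ≤ ∑ k ∈ Ico k0 k1, f k := by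
  rw [← sum_biUnion]
  · exact sum_le_sum_of_subset (biUnion_subset.2 fun j hj' =>
      Ico_subset_Ico (hj j hj').1 (hj j hj').2)
  · intro j h j' h' hne
    refine disjoint_left.2 fun n a b => ?_
    have := mem_Ico.1 a
    have := mem_Ico.1 b
    have := hd j h j' h' hne
    omega

/-- dyadic classes met by a band -/
theorem band_class {Lam l y : ℝ} {ell : ℕ} {q : ℤ} (hl : 0 < l) (hL : Lam ≤ 2 ^ ell)
    (h0 : l ≤ y) (h1 : y < 512 * Lam * l) (e0 : (2 : ℝ) ^ q ≤ y) (e1 : y < (2 : ℝ) ^ (q + 1)) :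
    q ∈ Icc (Int.log 2 l) (Int.log 2 l + ell + 9) := by
  have a := Int.zpow_log_le_self (b := 2) (by norm_num) hl
  have a' := Int.lt_zpow_succ_log_self (b := 2) (by norm_num) l
  push_cast at a a'
  rw [mem_Icc]
  constructor
  · have : (2 : ℝ) ^ Int.log 2 l < 2 ^ (q + 1) := by linarith
    have := (zpow_lt_zpow_iff_right₀ (by norm_num : (1 : ℝ) < 2)).1 this
    omega
  · have e : (2 : ℝ) ^ (Int.log 2 l + ell + 10) = 512 * 2 ^ ell * 2 ^ (Int.log 2 l + 1) := by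
      rw [zpow_add₀ (by norm_num), zpow_add₀ (by norm_num), zpow_add₀ (by norm_num), zpow_natCast]
      norm_num; ring
    have p : (0 : ℝ) < 2 ^ ell := by positivity
    have : (2 : ℝ) ^ q < 2 ^ (Int.log 2 l + ell + 10) := by
      rw [e]
      have b1 : 512 * Lam * l ≤ 512 * 2 ^ ell * l := by nlinarith
      have b2 : 512 * 2 ^ ell * l ≤ 512 * 2 ^ ell * (2 : ℝ) ^ (Int.log 2 l + 1) := by nlinarith
      linarith
    have := (zpow_lt_zpow_iff_right₀ (by norm_num : (1 : ℝ) < 2)).1 this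
    omega

theorem side {W A1 A2 : Type*} (r b : I → ℝ) (t c : ℕ → ℝ) (X : Finset I) (k0 k1 : ℕ)
    (hr : ∀ p ∈ X, 0 < r p) (hm : ∀ k l, k0 ≤ k → k ≤ l → l ≤ k1 → t k ≤ t l)
    (J : Finset W) (lo hi : W → ℕ) (DT : W → A1) (DD : W → A2) (dlo dhi : A2 → ℕ)
    (Rows : A2 → Finset ℝ) (Lam : ℝ) (ell R A Bl : ℕ)
    (hj : ∀ j ∈ J, k0 ≤ dlo (DD j) ∧ dlo (DD j) ≤ lo j ∧ lo j ≤ hi j ∧ hi j ≤ dhi (DD j) ∧
      dhi (DD j) ≤ k1)
    (hd : ∀ j ∈ J, ∀ j' ∈ J, j ≠ j' → hi j ≤ lo j' ∨ hi j' ≤ lo j)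
    (hL : 1 ≤ Lam) (hl : Lam ≤ 2 ^ ell) (hR : ∀ j ∈ J, (Rows (DD j)).card ≤ R)
    (hrow : ∀ j ∈ J, ∀ lam ∈ Rows (DD j),
      0 < lam ∧ 64 * Lam * (t (dhi (DD j)) - t (dlo (DD j))) ≤ lam)
    (hsep : ∀ j ∈ J, ∀ j' ∈ J, DT j ≠ DT j' → ∃ lam ∈ Rows (DD j), lam ∈ Rows (DD j') ∧
      lam ≤ Lam * |t (lo j) - t (lo j')| ∧ |t (lo j) - t (lo j')| ≤ lam)
    (hA : ∀ d, (J.filter fun j => DT j = d).card ≤ A) (hB : 3 * J.card < 2 ^ Bl) :
    ∃ (P : W → Finset ℝ) (Rest : W → ℝ → Prop) (Q : W → Finset ℤ),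
      (∀ j ∈ J, (P j).card ≤ 24 * R * Bl ∧ (Q j).card ≤ 12 * R * Bl * (ell + 10) ∧
        ∀ z ∈ P j, 0 < z) ∧
      (∀ j ∈ J, ∀ y y' : ℝ, y < y' → ¬ (Rest j y ↔ Rest j y') → ∃ z ∈ P j, y < z ∧ z ≤ y') ∧
      (∀ j ∈ J, ∀ (y : ℝ) (q : ℤ), (2 : ℝ) ^ q ≤ y → y < (2 : ℝ) ^ (q + 1) → q ∉ Q j → Rest j y) ∧
      ∑ j ∈ J, ((Ch (St r b t c) (X.filter fun p => Rest j (r p)) (lo j) (hi j)).card +
          ∑ z ∈ P j, flux (St r b t c) X (fun p => r p < z) (lo j) (hi j)) ≤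
        (2 + 216 * R * Bl) * (A + 1) * Phi (St r b t c) X k0 k1 +
          288 * R ^ 2 * Bl ^ 3 * ∑ d ∈ J.image DD, Phi (St r b t c) X (dlo d) (dhi d) := by
  set U := St r b t c with hU
  have h1 : ∀ j, ∃ i i' : ℕ, lo j ≤ hi j → lo j ≤ i ∧ i ≤ hi j ∧ lo j ≤ i' ∧ i' ≤ hi j ∧
      (∀ k, lo j ≤ k → k ≤ hi j → c i ≤ c k) ∧ ∀ k, lo j ≤ k → k ≤ hi j → c k ≤ c i' := by
    intro j
    by_cases h : lo j ≤ hi j
    · obtain ⟨i, i', H⟩ := ex_min_max c h
      exact ⟨i, i', fun _ => H⟩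
    · exact ⟨0, 0, fun h' => absurd h' h⟩
  choose imin imax hmm using h1
  set val : W → Finset ℝ := fun j => {c (lo j), c (imin j), c (imax j)} with hval
  have val3 : ∀ j, (val j).card ≤ 3 := fun j => card_le_three
  set V := J.biUnion val with hV
  have hVB : V.card < 2 ^ Bl := by
    have : V.card ≤ J.card * 3 := card_biUnion_le_card_mul J val 3 fun j _ => val3 j
    omega
  have valV : ∀ j ∈ J, ∀ v ∈ val j, v ∈ V := fun j hj v hv => mem_biUnion.2 ⟨j, hj, hv⟩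
  choose Lt hLt1 hLt2 using ex_light V Bl hVB
  set S : W → Finset ℤ := fun j => (val j).biUnion Lt with hS
  have hSc : ∀ j, (S j).card ≤ 12 * Bl := by
    intro j
    have := card_biUnion_le_card_mul (val j) Lt (4 * Bl) fun v _ => hLt1 v
    have := val3 j
    calc (S j).card ≤ (val j).card * (4 * Bl) := by assumption
      _ ≤ 3 * (4 * Bl) := Nat.mul_le_mul_right _ (val3 j)
      _ = 12 * Bl := by ring
  set Bd : W → Finset (ℝ × ℤ) := fun j => Rows (DD j) ×ˢ S j with hBd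
  have hBc : ∀ j ∈ J, (Bd j).card ≤ 12 * R * Bl := by
    intro j hj'
    simp only [hBd, card_product]
    calc _ ≤ R * (12 * Bl) := Nat.mul_le_mul (hR j hj') (hSc j)
      _ = _ := by ring
  set l : ℝ × ℤ → ℝ := fun i => (2 : ℝ) ^ (i.2 - 1) / (64 * i.1) with hlf
  set u : ℝ × ℤ → ℝ := fun i => 512 * Lam * l i with huf
  choose P hP1 hP2 hP3 using fun j => ex_ends (Bd j) l u
  have lpos : ∀ j ∈ J, ∀ i ∈ Bd j, 0 < l i := by
    intro j hj' i hi'
    have := (hrow j hj' i.1 (mem_product.1 hi').1).1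
    simp only [hlf]
    positivity
  have ll : ∀ lam : ℝ, 0 < lam → ∀ s : ℤ, 64 * (lam * l (lam, s)) = (2 : ℝ) ^ (s - 1) := by
    intro lam h s
    simp only [hlf]
    field_simp
  set Rest : W → ℝ → Prop := fun j y => ∀ i ∈ Bd j, ¬ (l i ≤ y ∧ y < u i) with hRest
  have L0 : 0 < Lam := by linarith
  refine ⟨P, Rest, fun j => (Bd j).biUnion fun i => Icc (Int.log 2 (l i)) (Int.log 2 (l i) + ell + 9),
    ?_, fun j _ => hP3 j, ?_, ?_⟩
  · intro j hj'
    refine ⟨?_, ?_, ?_⟩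
    · have := hP1 j
      have := hBc j hj'
      nlinarith
    · refine (card_biUnion_le_card_mul _ _ (ell + 10) fun i _ => ?_).trans
        (Nat.mul_le_mul_right _ (hBc j hj'))
      rw [Int.card_Icc]
      omega
    · intro z hz
      obtain ⟨i, hi', e⟩ := (hP2 j z hz).1
      have := lpos j hj' i hi'
      rcases e with e | e
      · rwa [e]
      · rw [e]; simp only [huf]; positivity
  · intro j hj' y q e0 e1 hq i hi' h
    exact hq (mem_biUnion.2 ⟨i, hi', band_class (lpos j hj' i hi') hl h.1 h.2 e0 e1⟩)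
  -- the sum
  have hmj : ∀ j ∈ J, ∀ k l, dlo (DD j) ≤ k → k ≤ l → l ≤ dhi (DD j) → t k ≤ t l :=
    fun j hj' k l a b' e => hm k l ((hj j hj').1.trans a) b' (e.trans (hj j hj').2.2.2.2)
  set Un : W → Finset I := fun j => (Ch U X (lo j) (hi j)).filter fun p => ∃ v ∈ val j,
    Pinned r b (t (lo j)) (t (hi j)) v p ∧
      ¬ ∃ lam ∈ Rows (DD j), ∃ s ∈ Lt v, Core Lam lam s (r p) with hUn
  have short : ∀ j ∈ J, ∀ lam ∈ Rows (DD j), 64 * Lam * (t (hi j) - t (lo j)) ≤ lam := by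
    intro j hj' lam hl'
    obtain ⟨a1, a2, a3, a4, a5⟩ := hj j hj'
    have b1 := hmj j hj' _ _ le_rfl a2 (a3.trans a4)
    have b2 := hmj j hj' _ _ (a2.trans a3) a4 le_rfl
    have b3 := (hrow j hj' lam hl').2
    nlinarith
  have mult : ∑ j ∈ J, (Un j).card ≤ A * (Ch U X k0 k1).card := by
    have e : ∑ j ∈ J, (Un j).card =
        ∑ p ∈ Ch U X k0 k1, (J.filter fun j => p ∈ Un j).card := by
      have : ∀ j ∈ J, (Un j).card = ((Ch U X k0 k1).filter fun p => p ∈ Un j).card := by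
        intro j hj'
        obtain ⟨a1, a2, a3, a4, a5⟩ := hj j hj'
        congr 1
        ext p
        simp only [mem_filter (p := fun p => p ∈ Un j)]
        exact ⟨fun h => ⟨Ch_mono Subset.rfl (a1.trans a2) (a4.trans a5) (mem_filter.1 h).1, h⟩,
          fun h => h.2⟩
      rw [sum_congr rfl this]
      simp only [card_filter]
      exact sum_comm
    rw [e, mul_comm]
    refine sum_le_card_nsmul _ _ _ fun p hp => ?_
    rcases (J.filter fun j => p ∈ Un j).eq_empty_or_nonempty with h | ⟨j, h⟩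
    · simp [h]
    refine le_trans (card_le_card fun j' h' => ?_) (hA (DT j))
    obtain ⟨hj1, h⟩ := mem_filter.1 h
    obtain ⟨hj2, h'⟩ := mem_filter.1 h'
    refine mem_filter.2 ⟨hj2, ?_⟩
    by_contra hne
    obtain ⟨lam, m1, m2, m3, m4⟩ := hsep j' hj2 j hj1 hne
    obtain ⟨v, hv, p1, n1⟩ := (mem_filter.1 h).2
    obtain ⟨v', hv', p2, n2⟩ := (mem_filter.1 h').2
    obtain ⟨s, hs, hc⟩ := mult_geo V (hr p (Ch_subset hp)) hL (hrow j' hj2 lam m1).1 p2 p1
      (short j' hj2 lam m1) (short j hj1 lam m2) m3 m4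
    rcases hs with hs | hs
    · exact n2 ⟨lam, m1, s, (hLt2 v' (valV j' hj2 v' hv') s).2 hs, hc⟩
    · exact n1 ⟨lam, m2, s, (hLt2 v (valV j hj1 v hv) s).2 hs, hc⟩
  set dG : W → ℝ → ℤ := fun j lam =>
    Gf U X (piF r b V (t (dlo (DD j))) (t (dhi (DD j))) lam) Bl (dlo (DD j)) (hi j) -
      Gf U X (piF r b V (t (dlo (DD j))) (t (dhi (DD j))) lam) Bl (dlo (DD j)) (lo j) with hdG
  have stepG : ∀ j ∈ J, ∀ lam ∈ Rows (DD j), ∀ k l, dlo (DD j) ≤ k → k ≤ l → l ≤ dhi (DD j) →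
      Gf U X (piF r b V (t (dlo (DD j))) (t (dhi (DD j))) lam) Bl (dlo (DD j)) k ≤
      Gf U X (piF r b V (t (dlo (DD j))) (t (dhi (DD j))) lam) Bl (dlo (DD j)) l := by
    intro j hj' lam hl' k l a1 a2 a3
    have := Gf_step (tp_lines (a := r) (b := b) (m := c) (hmj j hj') le_rfl le_rfl X)
      (piF_le hVB _ _ lam) (fun p q => piF_mono V (hrow j hj' lam hl').1.le)
      a1 a2 a3 (X0 := ∅) (Y0 := ∅) (empty_subset _) (empty_subset _) (by simp)
    exact sub_nonneg.1 (le_trans (by positivity) this)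
  have dpos : ∀ j ∈ J, 0 ≤ ∑ lam ∈ Rows (DD j), dG j lam := by
    intro j hj'
    obtain ⟨a1, a2, a3, a4, a5⟩ := hj j hj'
    exact sum_nonneg fun lam hl' => sub_nonneg.2 (stepG j hj' lam hl' _ _ a2 a3 a4)
  have potsum : ∑ j ∈ J, ∑ lam ∈ Rows (DD j), dG j lam ≤
      (R * Bl : ℤ) * ∑ d ∈ J.image DD, (Phi U X (dlo d) (dhi d) : ℤ) := by
    rw [← sum_fiberwise_of_maps_to (g := DD) (t := J.image DD) fun j hj' => mem_image_of_mem _ hj',
      mul_sum]
    refine sum_le_sum fun d hd' => ?_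
    obtain ⟨j0, hj0, rfl⟩ := mem_image.1 hd'
    obtain ⟨a1, a2, a3, a4, a5⟩ := hj j0 hj0
    have e : ∀ j ∈ J.filter (fun j => DD j = DD j0), ∑ lam ∈ Rows (DD j), dG j lam =
        ∑ lam ∈ Rows (DD j0),
          (Gf U X (piF r b V (t (dlo (DD j0))) (t (dhi (DD j0))) lam) Bl (dlo (DD j0)) (hi j) -
          Gf U X (piF r b V (t (dlo (DD j0))) (t (dhi (DD j0))) lam) Bl (dlo (DD j0)) (lo j)) := by
      intro j hj'
      simp only [hdG, (mem_filter.1 hj').2]
    rw [sum_congr rfl e, sum_comm]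
    have f : ∀ lam ∈ Rows (DD j0), ∑ j ∈ J.filter (fun j => DD j = DD j0),
        (Gf U X (piF r b V (t (dlo (DD j0))) (t (dhi (DD j0))) lam) Bl (dlo (DD j0)) (hi j) -
          Gf U X (piF r b V (t (dlo (DD j0))) (t (dhi (DD j0))) lam) Bl (dlo (DD j0)) (lo j)) ≤
        (Bl : ℤ) * Phi U X (dlo (DD j0)) (dhi (DD j0)) := by
      intro lam hl'
      refine (sum_incr _ lo hi _ (dlo (DD j0)) (dhi (DD j0)) (a2.trans (a3.trans a4))
        (fun k x y => stepG j0 hj0 lam hl' k (k + 1) x (Nat.le_succ k) y) ?_ ?_).trans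
        (Gf_top (piF_le hVB _ _ lam) (a2.trans (a3.trans a4)))
      · intro j hj'
        obtain ⟨hj', e⟩ := mem_filter.1 hj'
        have := hj j hj'
        rw [e] at this
        exact ⟨this.2.1, this.2.2.1, this.2.2.2.1⟩
      · intro j x j' y
        exact hd j (mem_filter.1 x).1 j' (mem_filter.1 y).1
    have g := sum_le_card_nsmul _ _ _ f
    have g2 : ((Rows (DD j0)).card : ℤ) ≤ R := by exact_mod_cast hR j0 hj0
    have g3 : (0 : ℤ) ≤ (Bl : ℤ) * Phi U X (dlo (DD j0)) (dhi (DD j0)) := by positivity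
    rw [nsmul_eq_mul] at g
    nlinarith
  have one : ∀ j ∈ J, ∀ z ∈ P j, (flux U X (fun p => r p < z) (lo j) (hi j) : ℤ) ≤
      3 * Dr U X (lo j) (hi j) + (Un j).card + 4 * Bl * ∑ lam ∈ Rows (DD j), dG j lam := by
    intro j hj' z hz
    obtain ⟨a1, a2, a3, a4, a5⟩ := hj j hj'
    have hv : c (lo j) ∈ val j := mem_insert_self _ _
    have hv' := valV j hj' _ hv
    have a := flux_cut (b := b) (c := c) (z := z) (S := Lt (c (lo j))) hr (hmj j hj') hVB hL a2 a3 a4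
      hv' (fun s hs => (hLt2 _ hv' s).1 hs) (hrow j hj') (by
        intro lam hl' s hs h
        have l0 := (hrow j hj' lam hl').1
        have e := ll lam l0 s
        have n := (hP2 j z hz).2 (lam, s) (mem_product.2 ⟨hl', mem_biUnion.2 ⟨_, hv, hs⟩⟩)
        by_contra hc
        refine n ⟨?_, ?_⟩
        · have : lam * l (lam, s) < lam * z := by linarith [not_le.1 hc]
          exact lt_of_mul_lt_mul_left this l0.le
        · have : lam * z < lam * u (lam, s) := by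
            simp only [huf]
            nlinarith
          exact lt_of_mul_lt_mul_left this l0.le)
    have b1 : ((Ch U X (lo j) (hi j)).filter fun p => Pinned r b (t (lo j)) (t (hi j)) (c (lo j)) p ∧
        ¬ ∃ lam ∈ Rows (DD j), ∃ s ∈ Lt (c (lo j)), Core Lam lam s (r p)).card ≤ (Un j).card :=
      card_le_card fun p hp => mem_filter.2 ⟨(mem_filter.1 hp).1, _, hv, (mem_filter.1 hp).2⟩
    have b2 : ((Lt (c (lo j))).card : ℤ) ≤ 4 * Bl := by exact_mod_cast hLt1 _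
    have b3 := mul_le_mul_of_nonneg_right b2 (dpos j hj')
    have b4 : (((Ch U X (lo j) (hi j)).filter fun p =>
        Pinned r b (t (lo j)) (t (hi j)) (c (lo j)) p ∧
        ¬ ∃ lam ∈ Rows (DD j), ∃ s ∈ Lt (c (lo j)), Core Lam lam s (r p)).card : ℤ) ≤
        (Un j).card := by exact_mod_cast b1
    exact a.trans (add_le_add (add_le_add le_rfl b4) b3)
  have rest : ∀ j ∈ J, (Ch U (X.filter fun p => Rest j (r p)) (lo j) (hi j)).card ≤
      2 * (Un j).card + Dr U X (lo j) (hi j) +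
        2 * ∑ z ∈ P j, flux U X (fun p => r p < z) (lo j) (hi j) := by
    intro j hj'
    obtain ⟨a1, a2, a3, a4, a5⟩ := hj j hj'
    obtain ⟨m1, m2, m3, m4, m5, m6⟩ := hmm j a3
    have hm' : ∀ k l, lo j ≤ k → k ≤ l → l ≤ hi j → t k ≤ t l :=
      fun k l x y w => hmj j hj' k l (a2.trans x) y (w.trans a4)
    have a := pin2 (r := r) (b := b) (c := c) (X := X.filter fun p => Rest j (r p))
      (fun p hp => (hr p (mem_filter.1 hp).1).le) hm' le_rfl le_rfl m1 m2 m3 m4 m5 m6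
    have b1 : ((Ch U (X.filter fun p => Rest j (r p)) (lo j) (hi j)).filter fun p =>
        Pinned r b (t (lo j)) (t (hi j)) (c (imin j)) p ∨
          Pinned r b (t (lo j)) (t (hi j)) (c (imax j)) p).card ≤ (Un j).card := by
      refine card_le_card fun p hp => ?_
      obtain ⟨hp, e⟩ := mem_filter.1 hp
      have hre : Rest j (r p) := (mem_filter.1 (Ch_subset hp)).2
      have nl : ∀ v ∈ val j, ¬ ∃ lam ∈ Rows (DD j), ∃ s ∈ Lt v, Core Lam lam s (r p) := by
        rintro v hv ⟨lam, hl', s, hs, c1, c2⟩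
        have l0 := (hrow j hj' lam hl').1
        have e := ll lam l0 s
        have p0 : (0 : ℝ) < 2 ^ (s - 1) := by positivity
        refine hre (lam, s) (mem_product.2 ⟨hl', mem_biUnion.2 ⟨_, hv, hs⟩⟩) ⟨?_, ?_⟩
        · have : lam * l (lam, s) ≤ lam * r p := by linarith
          exact le_of_mul_le_mul_left this l0
        · have : lam * r p < lam * u (lam, s) := by
            simp only [huf]
            nlinarith
          exact lt_of_mul_lt_mul_left this l0.le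
      refine mem_filter.2 ⟨Ch_mono (filter_subset _ _) le_rfl le_rfl hp, ?_⟩
      rcases e with e | e
      · exact ⟨_, by simp [hval], e, nl _ (by simp [hval])⟩
      · exact ⟨_, by simp [hval], e, nl _ (by simp [hval])⟩
    have b2 := cut (tp_lines (a := r) (b := b) (m := c) hm' le_rfl le_rfl X)
      (fun p => Rest j (r p)) {True} (P j) (fun z p => r p < z) (by
        intro p _ q _ h hne
        obtain ⟨z, hz, e1, e2⟩ := hP3 j (r p) (r q) h.1 fun e => hne (propext e)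
        exact ⟨z, hz, e1, not_lt.2 e2⟩)
    rw [sum_singleton] at b2
    have b3 : (X.filter fun p => Rest j (r p) = True) = X.filter fun p => Rest j (r p) :=
      filter_congr fun _ _ => by simp
    have b4 : Dr U (X.filter fun p => Rest j (r p)) (lo j) (hi j) ≤ Dr U X (lo j) (hi j) +
        2 * ∑ z ∈ P j, flux U X (fun p => r p < z) (lo j) (hi j) := by
      rw [← b3]; convert b2
    have a' : (Ch U (X.filter fun p => Rest j (r p)) (lo j) (hi j)).card ≤
        2 * ((Ch U (X.filter fun p => Rest j (r p)) (lo j) (hi j)).filter fun p =>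
        Pinned r b (t (lo j)) (t (hi j)) (c (imin j)) p ∨
          Pinned r b (t (lo j)) (t (hi j)) (c (imax j)) p).card +
        Dr U (X.filter fun p => Rest j (r p)) (lo j) (hi j) := by convert a
    omega
  have drs : ∑ j ∈ J, Dr U X (lo j) (hi j) ≤ Dr U X k0 k1 :=
    sum_win J lo hi _ k0 k1 (fun j hj' => ⟨(hj j hj').1.trans (hj j hj').2.1,
      (hj j hj').2.2.2.1.trans (hj j hj').2.2.2.2⟩) hd
  have each : ∀ j ∈ J, (((Ch U (X.filter fun p => Rest j (r p)) (lo j) (hi j)).card +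
      ∑ z ∈ P j, flux U X (fun p => r p < z) (lo j) (hi j) : ℕ) : ℤ) ≤
      (2 + 72 * R * Bl) * ((Un j).card : ℤ) + (1 + 216 * R * Bl) * (Dr U X (lo j) (hi j) : ℤ) +
        288 * R * Bl ^ 2 * ∑ lam ∈ Rows (DD j), dG j lam := by
    intro j hj'
    have a := sum_le_card_nsmul _ _ _ (one j hj')
    rw [nsmul_eq_mul] at a
    have a2 : ((P j).card : ℤ) ≤ 24 * R * Bl := by
      have := hP1 j
      have := hBc j hj'
      exact_mod_cast (by nlinarith : (P j).card ≤ 24 * R * Bl)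
    have a3 : (0 : ℤ) ≤ 3 * Dr U X (lo j) (hi j) + (Un j).card +
        4 * Bl * ∑ lam ∈ Rows (DD j), dG j lam :=
      add_nonneg (by positivity) (mul_nonneg (by positivity) (dpos j hj'))
    have a4 := a.trans (mul_le_mul_of_nonneg_right a2 a3)
    have a5 : ((Ch U (X.filter fun p => Rest j (r p)) (lo j) (hi j)).card : ℤ) ≤
        2 * (Un j).card + Dr U X (lo j) (hi j) +
          2 * ∑ z ∈ P j, (flux U X (fun p => r p < z) (lo j) (hi j) : ℤ) := by
      exact_mod_cast rest j hj'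
    push_cast
    linarith
  have tot := sum_le_sum each
  rw [sum_add_distrib, sum_add_distrib, ← mul_sum, ← mul_sum, ← mul_sum, ← Nat.cast_sum] at tot
  have mult' : ∑ j ∈ J, ((Un j).card : ℤ) ≤ A * (Ch U X k0 k1).card := by exact_mod_cast mult
  have drs' : ∑ j ∈ J, (Dr U X (lo j) (hi j) : ℤ) ≤ Dr U X k0 k1 := by exact_mod_cast drs
  have t1 := mul_le_mul_of_nonneg_left mult' (by positivity : (0 : ℤ) ≤ 2 + 72 * R * Bl)
  have t2 := mul_le_mul_of_nonneg_left drs' (by positivity : (0 : ℤ) ≤ 1 + 216 * R * Bl)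
  have t3 := mul_le_mul_of_nonneg_left potsum (by positivity : (0 : ℤ) ≤ 288 * R * Bl ^ 2)
  have t4 : (2 + 72 * R * Bl : ℤ) * (A * (Ch U X k0 k1).card) + (1 + 216 * R * Bl) * Dr U X k0 k1 ≤
      (2 + 216 * R * Bl) * (A + 1) * Phi U X k0 k1 := by
    have : (2 + 72 * R * Bl) * (A * (Ch U X k0 k1).card) + (1 + 216 * R * Bl) * Dr U X k0 k1 ≤
        (2 + 216 * R * Bl) * (A + 1) * Phi U X k0 k1 := by
      unfold Phi
      have u1 : (2 + 72 * R * Bl) * (A * (Ch U X k0 k1).card) ≤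
          (2 + 216 * R * Bl) * (A + 1) * (Ch U X k0 k1).card := by
        rw [← mul_assoc]
        gcongr <;> omega
      have u2 : (1 + 216 * R * Bl) * Dr U X k0 k1 ≤ (2 + 216 * R * Bl) * (A + 1) * Dr U X k0 k1 := by
        refine Nat.mul_le_mul_right _ ?_
        exact le_trans (by omega) (Nat.le_mul_of_pos_right _ (Nat.succ_pos A))
      rw [mul_add ((2 + 216 * R * Bl) * (A + 1))]
      exact add_le_add u1 u2
    exact_mod_cast this
  have fin : ((∑ j ∈ J, ((Ch U (X.filter fun p => Rest j (r p)) (lo j) (hi j)).card +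
      ∑ z ∈ P j, flux U X (fun p => r p < z) (lo j) (hi j)) : ℕ) : ℤ) ≤
      (((2 + 216 * R * Bl) * (A + 1) * Phi U X k0 k1 +
        288 * R ^ 2 * Bl ^ 3 * ∑ d ∈ J.image DD, Phi U X (dlo d) (dhi d) : ℕ) : ℤ) := by
    refine tot.trans ?_
    push_cast
    linarith
  have fin' := Nat.cast_le.1 fin
  convert fin'

end Pool.Agent.Lib.MP_d308c3_co.LX
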